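import Pool.Agent.Helper26.Bil.ToolsA
import Pool.Agent.Helper95.Bil.ToolsB
import Pool.Agent.Helper88.Bil.Ccsg
import Pool.Agent.Helper28.Bil.Pro
import Pool.Agent.Helper58.Bil.LinkBaseDef

/-!
BIL-LINK: smoothness, base values, relations and uniqueness for the two links
(MP_190632_an, note 495).
-/

set_option autoImplicit false

namespace Pool.Agent.Helper58.Bil

open Real Set Filter Topology

namespace LinkAux

/-! ### Algebra of `SmAt` -/

section algebra
variable {X F : Type} [NormedAddCommGroup X] [NormedSpace ℝ X] [NormedAddCommGroup F]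
  [NormedSpace ℝ F] {p : X}

theorem const (c : F) : SmAt (fun _ : X => c) p := Eventually.of_forall fun _ => contDiffAt_const

theorem add {f g : X → F} (hf : SmAt f p) (hg : SmAt g p) : SmAt (fun w => f w + g w) p :=
  (hf.and hg).mono fun _ h => h.1.add h.2

theorem sub {f g : X → F} (hf : SmAt f p) (hg : SmAt g p) : SmAt (fun w => f w - g w) p :=
  (hf.and hg).mono fun _ h => h.1.sub h.2

theorem neg {f : X → F} (hf : SmAt f p) : SmAt (fun w => - f w) p :=
  hf.mono fun _ h => h.neg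

theorem mul {f g : X → ℝ} (hf : SmAt f p) (hg : SmAt g p) : SmAt (fun w => f w * g w) p :=
  (hf.and hg).mono fun _ h => h.1.mul h.2

theorem div {f g : X → ℝ} (hf : SmAt f p) (hg : SmAt g p) (h0 : g p ≠ 0) :
    SmAt (fun w => f w / g w) p := by
  have h1 : ∀ᶠ w in 𝓝 p, g w ≠ 0 := hg.continuousAt.eventually_ne h0
  exact ((hf.and hg).and h1).mono fun _ h => h.1.1.div h.1.2 h.2

theorem of_contDiff {f : X → F} (hf : ContDiff ℝ ((⊤ : ℕ∞) : WithTop ℕ∞) f) : SmAt f p :=
  Eventually.of_forall fun _ => hf.contDiffAt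

theorem prod {G : Type} [NormedAddCommGroup G] [NormedSpace ℝ G] {f : X → F} {g : X → G}
    (hf : SmAt f p) (hg : SmAt g p) : SmAt (fun w => (f w, g w)) p :=
  (hf.and hg).mono fun _ h => h.1.prodMk h.2

theorem sinc {f : X → ℝ} (hf : SmAt f p) : SmAt (fun w => sin (f w)) p :=
  hf.mono fun _ h => h.sin

end algebra

section comp
variable {X Y F : Type} [NormedAddCommGroup X] [NormedSpace ℝ X] [NormedAddCommGroup Y]
  [NormedSpace ℝ Y] [NormedAddCommGroup F] [NormedSpace ℝ F]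

theorem fstp {p : X × Y} : SmAt (fun w : X × Y => w.1) p := of_contDiff contDiff_fst
theorem sndp {p : X × Y} : SmAt (fun w : X × Y => w.2) p := of_contDiff contDiff_snd

theorem cc_sm {α : ℝ} (hα : cos α ≠ 0) {f g h : X → ℝ} {p : X} (hf : SmAt f p) (hg : SmAt g p)
    (hh : SmAt h p) : SmAt (fun w => cc α (f w) (g w) (h w)) p :=
  ((hf.and hg).and hh).mono fun w H =>
    ContDiffAt.comp (g := fun z : ℝ × ℝ × ℝ => cc α z.1 z.2.1 z.2.2)
      (f := fun w => (f w, g w, h w)) w ((cc_smooth α hα).contDiffAt)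
      (H.1.1.prodMk (H.1.2.prodMk H.2))

theorem sg_sm {α : ℝ} (hα : cos α ≠ 0) {f g h : X → ℝ} {p : X} (hf : SmAt f p) (hg : SmAt g p)
    (hh : SmAt h p) : SmAt (fun w => sg α (f w) (g w) (h w)) p :=
  ((hf.and hg).and hh).mono fun w H =>
    ContDiffAt.comp (g := fun z : ℝ × ℝ × ℝ => sg α z.1 z.2.1 z.2.2)
      (f := fun w => (f w, g w, h w)) w ((sg_smooth α hα).contDiffAt)
      (H.1.1.prodMk (H.1.2.prodMk H.2))

/-- the profile is smooth near `s = 0` -/
theorem PP_sm {f g h : X → ℝ} {p : X} (hf : SmAt f p) (hg : SmAt g p)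
    (hh : SmAt h p) (h0 : f p = 0) : SmAt (fun w => PP (f w) (g w) (h w)) p := by
  have h1 : ∀ᶠ w in 𝓝 p, 1 + g w * f w * h w ≠ 0 := by
    have hc : ContinuousAt (fun w => 1 + g w * f w * h w) p :=
      ((continuousAt_const).add ((hg.continuousAt.mul hf.continuousAt).mul hh.continuousAt))
    apply hc.eventually_ne
    rw [h0]; simp
  exact (((hf.and hg).and hh).and h1).mono fun w H =>
    ContDiffAt.comp (g := fun z : ℝ × ℝ × ℝ => PP z.1 z.2.1 z.2.2)
      (f := fun w => (f w, g w, h w)) w (PP_smooth (f w) (g w) (h w) H.2)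
      (H.1.1.1.prodMk (H.1.1.2.prodMk H.1.2))

end comp

/-- the implicit function theorem in the affine situation met at all base points -/
theorem zer_step {Φ : ℝ × QQ → ℝ} {a b D0 c : ℝ} {p : QQ} (hab : a < b) (hc : 0 < c)
    (hD0 : D0 ∈ Ioo a b) (hs : ∀ D ∈ Icc a b, SmAt Φ (D, p))
    (hval : ∀ D, Φ (D, p) = c * (D - D0)) :
    SmAt (zer Φ a b) p ∧ zer Φ a b p = D0 ∧
      ∀ᶠ q in 𝓝 p, Φ (zer Φ a b q, q) = 0 ∧ ∀ D ∈ Icc a b, Φ (D, q) = 0 → D = zer Φ a b q := by
  have hd : ∀ D ∈ Icc a b, 0 < deriv (fun D' => Φ (D', p)) D := by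
    intro D _
    have h1 : (fun D' => Φ (D', p)) = fun D' => c * (D' - D0) := funext hval
    have h2 : HasDerivAt (fun D' => c * (D' - D0)) (c * 1) D :=
      ((hasDerivAt_id D).sub_const D0).const_mul c
    rw [h1, h2.deriv, mul_one]
    exact hc
  have ha : Φ (a, p) < 0 := by
    rw [hval]
    exact mul_neg_of_pos_of_neg hc (sub_neg.2 hD0.1)
  have hb : 0 < Φ (b, p) := by
    rw [hval]
    exact mul_pos hc (sub_pos.2 hD0.2)
  obtain ⟨h1, h2⟩ := SmAt.zer hab hs hd ha hb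
  refine ⟨h1, ?_, h2.mono fun q hq => hq.2⟩
  have h3 := h2.self_of_nhds
  exact (h3.2.2 D0 ⟨hD0.1.le, hD0.2.le⟩ (by rw [hval]; simp)).symm

/-! projections of `ℝ × QQ` and `QQ` -/
section proj
variable {p : ℝ × QQ} {q : QQ}
theorem z1 : SmAt (fun z : ℝ × QQ => z.1) p := of_contDiff (by fun_prop)
theorem z2 : SmAt (fun z : ℝ × QQ => z.2) p := of_contDiff (by fun_prop)
theorem zt : SmAt (fun z : ℝ × QQ => z.2.1) p := of_contDiff (by fun_prop)
theorem zs : SmAt (fun z : ℝ × QQ => z.2.2.1) p := of_contDiff (by fun_prop)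
theorem zx : SmAt (fun z : ℝ × QQ => z.2.2.2.1) p := of_contDiff (by fun_prop)
theorem ze : SmAt (fun z : ℝ × QQ => z.2.2.2.2.1) p := of_contDiff (by fun_prop)
theorem zn : SmAt (fun z : ℝ × QQ => z.2.2.2.2.2) p := of_contDiff (by fun_prop)
theorem qt : SmAt (fun z : QQ => z.1) q := of_contDiff (by fun_prop)
theorem qs : SmAt (fun z : QQ => z.2.1) q := of_contDiff (by fun_prop)
theorem qx : SmAt (fun z : QQ => z.2.2.1) q := of_contDiff (by fun_prop)
theorem qe : SmAt (fun z : QQ => z.2.2.2.1) q := of_contDiff (by fun_prop)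
theorem qn : SmAt (fun z : QQ => z.2.2.2.2) q := of_contDiff (by fun_prop)

/-- a smooth function of `q`, as a function of `(D, q)` -/
theorem lift {g : QQ → ℝ} {D : ℝ} (hg : SmAt g q) : SmAt (fun z : ℝ × QQ => g z.2) (D, q) :=
  SmAt.comp (g := g) (f := fun z : ℝ × QQ => z.2) hg z2

/-- substitution of a smooth function of `q` for `D` -/
theorem subst {g : ℝ × QQ → ℝ} {f : QQ → ℝ} (hf : SmAt f q) (hg : SmAt g (f q, q)) :
    SmAt (fun q => g (f q, q)) q :=
  SmAt.comp (g := g) (f := fun q => (f q, q)) hg (prod hf (of_contDiff contDiff_id))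

end proj

/-- the integral of the profile -/
theorem int_sm {β γ : ℝ × QQ → ℝ} {D : ℝ} {x e : ℝ} (hβ : SmAt β (D, q0 x e))
    (hγ : SmAt γ (D, q0 x e)) :
    SmAt (fun z : ℝ × QQ => ∫ y in (β z)..(γ z), PP z.2.2.1 z.2.2.2.1 y) (D, q0 x e) := by
  refine SmAt.integral (Φ := fun w : ℝ × (ℝ × QQ) => PP w.2.2.2.1 w.2.2.2.2.1 w.1) hβ hγ ?_
  intro y _
  refine PP_sm (of_contDiff (by fun_prop)) (of_contDiff (by fun_prop)) (of_contDiff (by fun_prop))
    ?_
  simp [q0]

end LinkAux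

open LinkAux

theorem link_base {α : ℝ} (h1 : 0 < α) (h2 : α < π / 2) (x e : ℝ) : LinkBase α x e := by
  have hcα : 0 < cos α := cos_pos_of_mem_Ioo ⟨by linarith, h2⟩
  have hsα : 0 < sin α := sin_pos_of_pos_of_lt_pi h1 (by linarith [pi_pos])
  have hβ1 : 0 < al2 α := by unfold al2; linarith
  have hβ2 : al2 α < π / 2 := by unfold al2; linarith
  have hcβ : 0 < cos (al2 α) := cos_pos_of_mem_Ioo ⟨by linarith, hβ2⟩
  have hsβ : 0 < sin (al2 α) := sin_pos_of_pos_of_lt_pi hβ1 (by linarith [pi_pos])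
  have htα : 0 < tan α := tan_pos_of_pos_of_lt_pi_div_two h1 h2
  have htβ : 0 < tan (al2 α) := tan_pos_of_pos_of_lt_pi_div_two hβ1 hβ2
  clear h2
  set q₀ := q0 x e with hq₀
  set A := 1 / tan α with hA
  set B := 1 / tan (al2 α) with hB
  have hA0 : 0 < A := by positivity
  have hB0 : 0 < B := by positivity
  have hAt : tan α * A = 1 := by rw [hA]; field_simp
  have hBt : tan (al2 α) * B = 1 := by rw [hB]; field_simp
  have h2A : 2 / tan α = 2 * A := by rw [hA]; ring
  have h2B : 2 / tan (al2 α) = 2 * B := by rw [hB]; ring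
  -- `D1`
  have sF1 : ∀ D, SmAt (F1 α) (D, q₀) := by
    intro D
    refine add (sub (neg (PP_sm zs zx (neg z1) rfl)) (cc_sm hcα.ne' zt z1 ze)) (mul zn ?_)
    exact sinc (add (const α) (mul zt z1))
  have vF1 : ∀ D, F1 α (D, q₀) = tan α * (D - A) := by
    intro D
    simp only [F1, hq₀, q0, PP_zero, cc_zero]
    linear_combination hAt
  obtain ⟨sD1, vD1, eD1⟩ := zer_step (Φ := F1 α) (a := 0) (b := 2 / tan α) (D0 := A) (c := tan α)
    (by positivity) htα ⟨hA0, by rw [h2A]; linarith⟩ (fun D _ => sF1 D) vF1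
  change SmAt (D1 α) q₀ at sD1
  change D1 α q₀ = A at vD1
  -- `K1`
  have sK1 : SmAt (K1 α) q₀ :=
    add (cc_sm hcα.ne' qt sD1 qe) (mul qn (sinc (add (const α) (mul qt sD1))))
  have vK1 : K1 α q₀ = -1 := by
    simp only [K1]
    rw [vD1]
    simp only [hq₀, q0, cc_zero]
    linear_combination -hAt
  -- `E2f`
  have sE2 : ∀ D, SmAt (E2f α) (D, q₀) := by
    intro D
    refine div (sub (sub (neg (int_sm (neg (lift sD1)) (add (lift sD1) (mul (const 2) z1))))
      (sg_sm hcα.ne' zt (lift sD1) ze)) (sg_sm hcβ.ne' zt z1 (const 0)))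
      (mul (const 2) (sinc (add (const (al2 α)) (mul zt z1)))) ?_
    simp only [hq₀, q0, zero_mul, add_zero]
    positivity
  have vE2 : ∀ D, 2 * sin (al2 α) * E2f α (D, q₀) =
      -(A + 2 * D) - 2 * sin α * e + tan (al2 α) * D ^ 2 := by
    intro D
    simp only [E2f]
    rw [vD1]
    simp only [hq₀, q0, zero_mul, add_zero, PP_zero, sg_zero]
    rw [intervalIntegral.integral_const]
    rw [mul_div_cancel₀ _ (by positivity)]
    simp only [smul_eq_mul, mul_one]
    linear_combination A * hAt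
  -- `D2`
  have sF2 : ∀ D, SmAt (F2 α) (D, q₀) := by
    intro D
    refine sub (div (sub (lift sK1) (PP_sm zs zx (add (lift sD1) (mul (const 2) z1)) rfl))
      (const 2) two_ne_zero) (cc_sm hcβ.ne' zt z1 (sE2 D))
  have vF2 : ∀ D, F2 α (D, q₀) = tan (al2 α) * (D - B) := by
    intro D
    simp only [F2]
    rw [vK1]
    simp only [hq₀, q0, PP_zero, cc_zero]
    linear_combination hBt
  obtain ⟨sD2, vD2, eD2⟩ := zer_step (Φ := F2 α) (a := 0) (b := 2 / tan (al2 α)) (D0 := B)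
    (c := tan (al2 α)) (by positivity) htβ ⟨hB0, by rw [h2B]; linarith⟩ (fun D _ => sF2 D) vF2
  change SmAt (D2 α) q₀ at sD2
  change D2 α q₀ = B at vD2
  have sN2 : SmAt (N2 α) q₀ := add sD1 sD2
  have vN2 : N2 α q₀ = A + B := by simp only [N2]; rw [vD1, vD2]
  have se2 : SmAt (e2 α) q₀ := subst sD2 (sE2 _)
  have ve2 : 2 * sin (al2 α) * e2 α q₀ = -(A + B) - 2 * sin α * e := by
    simp only [e2]
    rw [vE2, vD2]
    linear_combination B * hBt
  have ssβ : ∀ {D : QQ → ℝ}, SmAt D q₀ → SmAt (fun q => 2 * sin (al2 α + q.1 * D q)) q₀ :=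
    fun hD => mul (const 2) (sinc (add (const (al2 α)) (mul qt hD)))
  have ssα : ∀ {D : QQ → ℝ}, SmAt D q₀ → SmAt (fun q => 2 * sin (α + q.1 * D q)) q₀ :=
    fun hD => mul (const 2) (sinc (add (const α) (mul qt hD)))
  have nsβ : ∀ D : QQ → ℝ, 2 * sin (al2 α + q₀.1 * D q₀) ≠ 0 := by
    intro D
    simp only [hq₀, q0, zero_mul, add_zero]
    positivity
  have nsα : ∀ D : QQ → ℝ, 2 * sin (α + q₀.1 * D q₀) ≠ 0 := by
    intro D
    simp only [hq₀, q0, zero_mul, add_zero]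
    positivity
  have sh2 : SmAt (h2 α) q₀ :=
    div (sub (neg (PP_sm qs qx (add sD1 (mul (const 2) sD2)) rfl)) sK1) (ssβ sD2) (nsβ _)
  have vh2 : h2 α q₀ = 0 := by
    simp only [Bil.h2]
    rw [vK1]
    simp only [hq₀, q0, PP_zero]
    simp
  -- `D3`
  have sF3 : ∀ D, SmAt (F3 α) (D, q₀) := by
    intro D
    refine add (sub (PP_sm zs zx (sub (lift sN2) z1) rfl) (cc_sm hcβ.ne' zt z1 (lift se2)))
      (mul (lift sh2) (sinc (add (const (al2 α)) (mul zt z1))))
  have vF3 : ∀ D, F3 α (D, q₀) = tan (al2 α) * (D - (-B)) := by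
    intro D
    simp only [F3]
    rw [vh2]
    simp only [hq₀, q0, PP_zero, cc_zero]
    linear_combination -hBt
  obtain ⟨sD3, vD3, eD3⟩ := zer_step (Φ := F3 α) (a := -(2 / tan (al2 α))) (b := 0) (D0 := -B)
    (c := tan (al2 α)) (by rw [h2B]; linarith) htβ ⟨by rw [h2B]; linarith, by linarith⟩
    (fun D _ => sF3 D) vF3
  change SmAt (D3 α) q₀ at sD3
  change D3 α q₀ = -B at vD3
  -- `K2`
  have sK2 : SmAt (K2 α) q₀ :=
    add (cc_sm hcβ.ne' qt sD3 se2) (mul sh2 (sinc (add (const (al2 α)) (mul qt sD3))))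
  have vK2 : K2 α q₀ = 1 := by
    simp only [K2]
    rw [vD3, vh2]
    simp only [hq₀, q0, cc_zero]
    linear_combination hBt
  -- `E4f`
  have sE4 : ∀ D, SmAt (E4f α) (D, q₀) := by
    intro D
    refine div (sub (sub (int_sm (sub (lift sN2) (lift sD3))
      (add (add (lift sN2) (lift sD3)) (mul (const 2) z1)))
      (sg_sm hcβ.ne' zt (lift sD3) (lift se2))) (sg_sm hcα.ne' zt z1 (const 0)))
      (mul (const 2) (sinc (add (const α) (mul zt z1)))) ?_
    simp only [hq₀, q0, zero_mul, add_zero]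
    positivity
  -- `D4`
  have sF4 : ∀ D, SmAt (F4 α) (D, q₀) := by
    intro D
    refine sub (div (add (lift sK2) (PP_sm zs zx (add (add (lift sN2) (lift sD3))
      (mul (const 2) z1)) rfl)) (const 2) two_ne_zero) (cc_sm hcα.ne' zt z1 (sE4 D))
  have vF4 : ∀ D, F4 α (D, q₀) = tan α * (D - (-A)) := by
    intro D
    simp only [F4]
    rw [vK2]
    simp only [hq₀, q0, PP_zero, cc_zero]
    linear_combination -hAt
  obtain ⟨sD4, vD4, eD4⟩ := zer_step (Φ := F4 α) (a := -(2 / tan α)) (b := 0) (D0 := -A)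
    (c := tan α) (by rw [h2A]; linarith) htα ⟨by rw [h2A]; linarith, by linarith⟩
    (fun D _ => sF4 D) vF4
  change SmAt (D4 α) q₀ at sD4
  change D4 α q₀ = -A at vD4
  have sX : SmAt (XX α) q₀ := add (add sN2 sD3) sD4
  have se4 : SmAt (e4 α) q₀ := subst sD4 (sE4 _)
  have sh4 : SmAt (h4 α) q₀ :=
    div (sub (PP_sm qs qx (add (add sN2 sD3) (mul (const 2) sD4)) rfl) sK2) (ssα sD4) (nsα _)
  -- relations
  have n1 : ∀ᶠ q in 𝓝 q₀, 2 * sin (al2 α + q.1 * D2 α q) ≠ 0 :=
    (ssβ sD2).continuousAt.eventually_ne (nsβ _)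
  have n2 : ∀ᶠ q in 𝓝 q₀, 2 * sin (α + q.1 * D4 α q) ≠ 0 :=
    (ssα sD4).continuousAt.eventually_ne (nsα _)
  refine
    { sD1 := sD1, sD2 := sD2, sD3 := sD3, sD4 := sD4, sK1 := sK1, sK2 := sK2, sN2 := sN2
      se2 := se2, sh2 := sh2, sX := sX, se4 := se4, sh4 := sh4, vD1 := vD1, vD2 := vD2
      vD3 := vD3, vD4 := vD4, vK1 := vK1, vK2 := vK2, vh2 := vh2, ve2 := ve2
      rel := ?_
      uni := ?_ }
  · filter_upwards [eD1, eD2, eD3, eD4, n1, n2] with q e1 e2' e3 e4' m1 m2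
    have f1 := e1.1
    have f2 := e2'.1
    have f3 := e3.1
    have f4 := e4'.1
    change F1 α (D1 α q, q) = 0 at f1
    change F2 α (D2 α q, q) = 0 at f2
    change F3 α (D3 α q, q) = 0 at f3
    change F4 α (D4 α q, q) = 0 at f4
    simp only [F1] at f1
    simp only [F2] at f2
    simp only [F3] at f3
    simp only [F4] at f4
    have g2 : h2 α q * (2 * sin (al2 α + q.1 * D2 α q)) =
        - PP q.2.1 q.2.2.1 (D1 α q + 2 * D2 α q) - K1 α q := div_mul_cancel₀ _ m1
    have g4 : h4 α q * (2 * sin (α + q.1 * D4 α q)) =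
        PP q.2.1 q.2.2.1 (N2 α q + D3 α q + 2 * D4 α q) - K2 α q := div_mul_cancel₀ _ m2
    have k2 : e2 α q * (2 * sin (al2 α + q.1 * D2 α q)) =
        (-(∫ y in (- D1 α q)..(D1 α q + 2 * D2 α q), PP q.2.1 q.2.2.1 y)
        - sg α q.1 (D1 α q) q.2.2.2.1 - sg (al2 α) q.1 (D2 α q) 0) := div_mul_cancel₀ _ m1
    have k4 : e4 α q * (2 * sin (α + q.1 * D4 α q)) =
        ((∫ y in (N2 α q - D3 α q)..(N2 α q + D3 α q + 2 * D4 α q), PP q.2.1 q.2.2.1 y)
        - sg (al2 α) q.1 (D3 α q) (e2 α q) - sg α q.1 (D4 α q) 0) := div_mul_cancel₀ _ m2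
    have d2 : E2f α (D2 α q, q) = e2 α q := rfl
    have d4 : E4f α (D4 α q, q) = e4 α q := rfl
    rw [d2] at f2
    rw [d4] at f4
    constructor
    · constructor
      · rw [zero_sub]
        linear_combination f1
      · rfl
      · linear_combination f2 + g2 / 2
      · rw [zero_add]
        linear_combination f2 - g2 / 2
      · simp [N2]
      · rw [sg_add (al2 α) q.1 (D2 α q) (e2 α q), zero_sub, zero_add]
        linear_combination k2
    · constructor
      · linear_combination f3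
      · rfl
      · linear_combination f4 + g4 / 2
      · linear_combination f4 - g4 / 2
      · rfl
      · rw [sg_add α q.1 (D4 α q) (e4 α q)]
        linear_combination k4
  · filter_upwards [eD3, eD4] with q e3 e4'
    exact ⟨e3.2, e4'.2⟩

end Pool.Agent.Helper58.Bil
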